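import Mathlib

/-!
# Balanced ballots for three offices: the bound `6 n - 3` fails

The conjecture says that every balanced ballot system for three offices with
`2 n - 1`, `2 n` and `2 n + 1` candidates uses at least `6 n - 3` distinct ballots.
For `n = 4` (offices with 7, 8 and 9 candidates) we exhibit a balanced system with
20 distinct ballots, while `6 n - 3 = 21`.
-/

namespace Pool.Agent.Results.MP_14f59b_co.Disproof

/-- A ballot for offices `j : Fin k` with `m j` candidates each: for every office `j` a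
linear ordering of its candidates, that is, a bijection from the positions
`Fin (m j)` onto the candidates `Fin (m j)`; `b j p` is the candidate of office `j`
which is put in position `p`. -/
abbrev Ballot {k : ℕ} (m : Fin k → ℕ) : Type :=
  (j : Fin k) → Equiv.Perm (Fin (m j))

/-- A balanced ballot system: a finite nonempty set `S` of ballots with positive
multiplicities `w`, such that for each office `j` and each position `p` every candidate
of the office occurs in position `p` the same (weighted) number of times. -/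
structure IsBalanced {k : ℕ} (m : Fin k → ℕ) (S : Finset (Ballot m)) (w : Ballot m → ℕ) :
    Prop where
  nonempty : S.Nonempty
  pos : ∀ b ∈ S, 0 < w b
  balanced : ∀ (j : Fin k) (p c c' : Fin (m j)),
    ∑ b ∈ S with b j p = c, w b = ∑ b ∈ S with b j p = c', w b

/-- `B m` is the least number of distinct ballots in a balanced ballot system for offices
with `m j` candidates. -/
noncomputable def B {k : ℕ} (m : Fin k → ℕ) : ℕ :=
  sInf {N : ℕ | ∃ (S : Finset (Ballot m)) (w : Ballot m → ℕ), IsBalanced m S w ∧ S.card = N}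

/-- The offices with 7, 8 and 9 candidates. -/
abbrev m₀ : Fin 3 → ℕ := ![7, 8, 9]

/-- The ballot in which office orderings are the cyclic shifts by `a`, `b`, `c`. -/
def mk (a : Fin 7) (b : Fin 8) (c : Fin 9) : Ballot m₀ :=
  Fin.cases (motive := fun j => Equiv.Perm (Fin (m₀ j)))
    (Equiv.addRight (G := Fin 7) a)
    (fun j => Fin.cases (motive := fun j => Equiv.Perm (Fin (m₀ (Fin.succ j))))
      (Equiv.addRight (G := Fin 8) b)
      (fun j => Fin.cases (motive := fun j => Equiv.Perm (Fin (m₀ (Fin.succ (Fin.succ j)))))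
        (Equiv.addRight (G := Fin 9) c) (fun j => j.elim0) j) j)

/-- The shifts used by the 20 ballots, with their multiplicities. -/
def tbl : List (Fin 7 × Fin 8 × Fin 9 × ℕ) :=
  [(0, 0, 4, 56), (0, 0, 8, 7), (0, 6, 1, 9), (1, 1, 6, 2), (1, 1, 8, 14), (1, 4, 0, 56),
   (2, 2, 5, 56), (2, 2, 8, 7), (2, 7, 3, 9), (3, 3, 7, 2), (3, 3, 8, 14), (3, 5, 2, 56),
   (4, 1, 1, 47), (4, 6, 6, 25), (5, 3, 3, 47), (5, 7, 7, 25), (6, 4, 8, 7), (6, 5, 8, 7),
   (6, 6, 6, 29), (6, 7, 7, 29)]

/-- The index set of the system. -/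
def I : Finset (Fin 7 × Fin 8 × Fin 9) := (tbl.map fun t => (t.1, t.2.1, t.2.2.1)).toFinset

/-- The multiplicity attached to a triple of shifts. -/
def wt (x : Fin 7 × Fin 8 × Fin 9) : ℕ :=
  ((tbl.filter fun t => (t.1, t.2.1, t.2.2.1) = x).map fun t => t.2.2.2).sum

def mk' (x : Fin 7 × Fin 8 × Fin 9) : Ballot m₀ := mk x.1 x.2.1 x.2.2

lemma mk'_inj : Function.Injective mk' := by
  intro x y h
  have h0 : mk' x 0 (0 : Fin 7) = mk' y 0 (0 : Fin 7) := by rw [h]
  have h1 : mk' x 1 (0 : Fin 8) = mk' y 1 (0 : Fin 8) := by rw [h]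
  have h2 : mk' x 2 (0 : Fin 9) = mk' y 2 (0 : Fin 9) := by rw [h]
  change (0 : Fin 7) + x.1 = (0 : Fin 7) + y.1 at h0
  change (0 : Fin 8) + x.2.1 = (0 : Fin 8) + y.2.1 at h1
  change (0 : Fin 9) + x.2.2 = (0 : Fin 9) + y.2.2 at h2
  simp only [zero_add] at h0 h1 h2
  exact Prod.ext h0 (Prod.ext h1 h2)

/-- The 20 ballots. -/
def S : Finset (Ballot m₀) := I.map ⟨mk', mk'_inj⟩

/-- Their multiplicities. -/
def w (b : Ballot m₀) : ℕ := wt (b 0 (0 : Fin 7), b 1 (0 : Fin 8), b 2 (0 : Fin 9))

lemma w_mk' (x : Fin 7 × Fin 8 × Fin 9) : w (mk' x) = wt x := by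
  have h0 : mk' x 0 (0 : Fin 7) = x.1 := by
    change (0 : Fin 7) + x.1 = x.1
    simp
  have h1 : mk' x 1 (0 : Fin 8) = x.2.1 := by
    change (0 : Fin 8) + x.2.1 = x.2.1
    simp
  have h2 : mk' x 2 (0 : Fin 9) = x.2.2 := by
    change (0 : Fin 9) + x.2.2 = x.2.2
    simp
  unfold w
  rw [h0, h1, h2]

lemma card_S : S.card = 20 := by
  unfold S
  rw [Finset.card_map]
  decide +kernel

lemma sum_S (j : Fin 3) (p c : Fin (m₀ j)) :
    ∑ b ∈ S with b j p = c, w b = ∑ x ∈ I with mk' x j p = c, wt x := by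
  unfold S
  rw [Finset.filter_map, Finset.sum_map]
  refine Finset.sum_congr ?_ ?_
  · ext x
    simp
  · intro x _
    exact w_mk' x

lemma check : ∀ (j : Fin 3) (p c c' : Fin (m₀ j)),
    ∑ x ∈ I with mk' x j p = c, wt x = ∑ x ∈ I with mk' x j p = c', wt x := by
  decide +kernel

lemma isBalanced : IsBalanced m₀ S w where
  nonempty := by
    rw [← Finset.card_pos, card_S]
    norm_num
  pos := by
    intro b hb
    unfold S at hb
    rw [Finset.mem_map] at hb
    obtain ⟨x, hx, rfl⟩ := hb
    change 0 < w (mk' x)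
    rw [w_mk']
    revert hx
    revert x
    decide +kernel
  balanced := by
    intro j p c c'
    rw [sum_S, sum_S]
    exact check j p c c'

/-- There is a positive integer `n` for which `B (2n-1, 2n, 2n+1) ≥ 6n-3` fails: the
conjectured lower bound is false (it fails for `n = 4`, where `B (7, 8, 9) ≤ 20`). -/
theorem result :
    ¬ ∀ n : ℕ, 0 < n → 6 * n - 3 ≤ B ![2 * n - 1, 2 * n, 2 * n + 1] := by
  intro h
  have h4 : 21 ≤ B m₀ := h 4 (by norm_num)
  have h20 : B m₀ ≤ 20 := Nat.sInf_le ⟨S, w, isBalanced, card_S⟩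
  omega

end Pool.Agent.Results.MP_14f59b_co.Disproof
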